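import Pool.Agent.Helper10.BD.Goals

/-!
# Project BD, packet PRS: the inequalities of the profile (helper9)
-/

namespace Pool.Agent.Helper9.BD.PRS

/-- the small numbers -/
lemma small {H x : ℝ} (hH : 1 ≤ H) (hx : 0 ≤ x) (h : 10 ^ 5 * H ^ 2 * x ≤ 1) :
    H ^ 2 * x ≤ 1 / 10 ^ 5 ∧ H * x ≤ 1 / 10 ^ 5 ∧ x ≤ 1 / 10 ^ 5 := by
  have h1 : H ^ 2 * x ≤ 1 / 10 ^ 5 := by linarith
  have h2 : H * x ≤ H ^ 2 * x := by nlinarith [mul_nonneg (sub_nonneg.2 hH) hx]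
  have h3 : x ≤ H * x := by nlinarith
  exact ⟨h1, h2.trans h1, h3.trans (h2.trans h1)⟩

lemma mulb {k A c B : ℝ} (hk : |k| ≤ c) (hA : |A| ≤ B) : |k * A| ≤ c * B := by
  rw [abs_mul]
  exact mul_le_mul hk hA (abs_nonneg _) ((abs_nonneg _).trans hk)

/-- the terms which are small in all cases -/
lemma rest {e f uu i H T a0 au c0 c1 cu X0 Xu : ℝ} (hH : 1 ≤ H) (he : 0 < e) (he1 : e ≤ 1)
    (hf : 0 < f) (hf1 : f < 1) (hu : 0 ≤ uu) (hi : 0 < i) (hi' : 10 ^ 5 * H ^ 2 * i ≤ 1)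
    (hU : 10 ^ 5 * H ^ 2 * (uu * e) ≤ 1) (h0 : X0 ≤ H) (hu' : Xu ≤ H)
    (hT : 0 ≤ T) (ha0 : |a0| ≤ X0 * T) (hau : |au| ≤ Xu * T)
    (hc0 : |c0| ≤ H * T ^ 2) (hc1 : |c1| ≤ H * T ^ 2) (hcu : |cu| ≤ H * T ^ 2) :
    |24 * (1 - e) * (f * (1 - f)) * (i * c1) + (11 / 20 + 3 / 4 * f) * (23 / 2 * e * (i * c0)) +
      529 / 4 * (uu * e) * a0 ^ 2 - 23 / 2 * (uu * e) * (i * c0) + i ^ 2 * e * cu -
      23 * i * e * (a0 * au)| ≤ 1 / 200 * T ^ 2 := by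
  obtain ⟨i2, i1, i0⟩ := small hH hi.le hi'
  obtain ⟨U2, U1, U0⟩ := small hH (mul_nonneg hu he.le) hU
  have hUn : 0 ≤ uu * e := mul_nonneg hu he.le
  have hT2 : 0 ≤ T ^ 2 := sq_nonneg T
  have hH0 : 0 ≤ H := by linarith
  have ha0' : |a0| ≤ H * T := ha0.trans (mul_le_mul_of_nonneg_right h0 hT)
  have hau' : |au| ≤ H * T := hau.trans (mul_le_mul_of_nonneg_right hu' hT)
  have hic (c : ℝ) (hc : |c| ≤ H * T ^ 2) : |i * c| ≤ 1 / 10 ^ 5 * T ^ 2 := by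
    rw [abs_mul, abs_of_pos hi]
    have := mul_le_mul_of_nonneg_left hc hi.le
    have h2 := mul_le_mul_of_nonneg_right i1 hT2
    linarith
  have hff : 0 ≤ f * (1 - f) := mul_nonneg hf.le (by linarith)
  have hff4 : f * (1 - f) ≤ 1 / 4 := by nlinarith [sq_nonneg (f - 1 / 2)]
  have k1 : |24 * (1 - e) * (f * (1 - f))| ≤ 6 := by
    rw [abs_of_nonneg (mul_nonneg (mul_nonneg (by norm_num) (by linarith)) hff)]
    linarith [mul_nonneg he.le hff]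
  have b1 := mulb k1 (hic c1 hc1)
  have k2 : |11 / 20 + 3 / 4 * f| ≤ 13 / 10 := by
    rw [abs_of_pos (by linarith)]; linarith
  have k3 : |23 / 2 * e| ≤ 23 / 2 := by
    rw [abs_of_pos (by linarith)]; linarith
  have b2 := mulb k2 (mulb k3 (hic c0 hc0))
  have k4 : |529 / 4 * (uu * e) * a0 ^ 2| ≤ 529 / 4 * (1 / 10 ^ 5 * T ^ 2) := by
    have h1 : a0 ^ 2 ≤ (H * T) ^ 2 := sq_le_sq' (by linarith [abs_le.1 ha0']) (abs_le.1 ha0').2
    rw [abs_of_nonneg (by positivity)]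
    have h2 := mul_le_mul_of_nonneg_left h1 hUn
    have h3 := mul_le_mul_of_nonneg_right U2 hT2
    linarith
  have k5 : |23 / 2 * (uu * e)| ≤ 1 := by
    rw [abs_of_nonneg (by positivity)]
    linarith
  have b5 := mulb k5 (hic c0 hc0)
  have k6 : |i ^ 2 * e * cu| ≤ 1 / 10 ^ 5 * T ^ 2 := by
    have h1 : i ^ 2 * e * cu = (i * e) * (i * cu) := by ring
    rw [h1]
    have h2 : |i * e| ≤ 1 := by
      rw [abs_of_pos (mul_pos hi he)]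
      have := mul_le_mul_of_nonneg_left he1 hi.le
      linarith
    have := mulb h2 (hic cu hcu)
    linarith
  have k7 : |23 * i * e * (a0 * au)| ≤ 23 * (1 / 10 ^ 5 * T ^ 2) := by
    have h1 : |a0 * au| ≤ (H * T) * (H * T) := mulb ha0' hau'
    have h2 : |23 * i * e| ≤ 23 * i := by
      rw [abs_of_pos (mul_pos (mul_pos (by norm_num) hi) he)]
      have := mul_le_mul_of_nonneg_left he1 hi.le
      linarith
    have h3 := mulb h2 h1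
    have h4 := mul_le_mul_of_nonneg_right i2 hT2
    linarith
  set A1 := 24 * (1 - e) * (f * (1 - f)) * (i * c1)
  set A2 := (11 / 20 + 3 / 4 * f) * (23 / 2 * e * (i * c0))
  set A3 := 529 / 4 * (uu * e) * a0 ^ 2
  set A4 := 23 / 2 * (uu * e) * (i * c0)
  set A5 := i ^ 2 * e * cu
  set A6 := 23 * i * e * (a0 * au)
  rw [abs_le] at b1 b2 k4 b5 k6 k7 ⊢
  obtain ⟨b1a, b1b⟩ := b1
  obtain ⟨b2a, b2b⟩ := b2
  obtain ⟨k4a, k4b⟩ := k4
  obtain ⟨b5a, b5b⟩ := b5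
  obtain ⟨k6a, k6b⟩ := k6
  obtain ⟨k7a, k7b⟩ := k7
  clear_value A1 A2 A3 A4 A5 A6
  constructor <;> linarith

/-- the second derivative from the main terms -/
lemma second {e f uu i H T a0 a1 au c0 c1 cu X0 Xu Z : ℝ} (hH : 1 ≤ H) (he : 0 < e)
    (he1 : e ≤ 1)
    (hf : 0 < f) (hf1 : f < 1) (hu : 0 ≤ uu) (hi : 0 < i) (hi' : 10 ^ 5 * H ^ 2 * i ≤ 1)
    (hU : 10 ^ 5 * H ^ 2 * (uu * e) ≤ 1) (h0 : X0 ≤ H) (hu' : Xu ≤ H)
    (hT : 0 ≤ T) (ha0 : |a0| ≤ X0 * T) (hau : |au| ≤ Xu * T)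
    (hc0 : |c0| ≤ H * T ^ 2) (hc1 : |c1| ≤ H * T ^ 2) (hcu : |cu| ≤ H * T ^ 2)
    (hZ : |768 * ((1 - e) * (f * (1 - f) * (1 - 2 * f))) * a1 ^ 2| +
      |552 * (e * (f * (1 - f))) * (a0 * a1)| +
      |529 / 4 * ((11 / 20 + 3 / 4 * f) * e) * a0 ^ 2| ≤ Z * T ^ 2) (hZ' : Z ≤ 79) :
    |24 * (1 - e) * (f * (1 - f)) * (32 * (1 - 2 * f) * a1 ^ 2 + i * c1) +
      552 * e * (f * (1 - f)) * (a0 * a1) -
      (11 / 20 + 3 / 4 * f - uu) * (529 / 4 * e * a0 ^ 2 - 23 / 2 * e * (i * c0)) +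
      i ^ 2 * e * cu - 23 * i * e * (a0 * au)| ≤ 80 * T ^ 2 := by
  have h := rest hH he he1 hf hf1 hu hi hi' hU h0 hu' hT ha0 hau hc0 hc1 hcu
  have e1 : 24 * (1 - e) * (f * (1 - f)) * (32 * (1 - 2 * f) * a1 ^ 2 + i * c1) +
      552 * e * (f * (1 - f)) * (a0 * a1) -
      (11 / 20 + 3 / 4 * f - uu) * (529 / 4 * e * a0 ^ 2 - 23 / 2 * e * (i * c0)) +
      i ^ 2 * e * cu - 23 * i * e * (a0 * au) =
      768 * ((1 - e) * (f * (1 - f) * (1 - 2 * f))) * a1 ^ 2 +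
      552 * (e * (f * (1 - f))) * (a0 * a1) -
      529 / 4 * ((11 / 20 + 3 / 4 * f) * e) * a0 ^ 2 +
      (24 * (1 - e) * (f * (1 - f)) * (i * c1) + (11 / 20 + 3 / 4 * f) * (23 / 2 * e * (i * c0)) +
      529 / 4 * (uu * e) * a0 ^ 2 - 23 / 2 * (uu * e) * (i * c0) + i ^ 2 * e * cu -
      23 * i * e * (a0 * au)) := by ring
  rw [e1]
  set B1 := 768 * ((1 - e) * (f * (1 - f) * (1 - 2 * f))) * a1 ^ 2
  set B2 := 552 * (e * (f * (1 - f))) * (a0 * a1)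
  set B3 := 529 / 4 * ((11 / 20 + 3 / 4 * f) * e) * a0 ^ 2
  set R := 24 * (1 - e) * (f * (1 - f)) * (i * c1) + (11 / 20 + 3 / 4 * f) * (23 / 2 * e * (i * c0)) +
      529 / 4 * (uu * e) * a0 ^ 2 - 23 / 2 * (uu * e) * (i * c0) + i ^ 2 * e * cu -
      23 * i * e * (a0 * au)
  have hT2 : 0 ≤ T ^ 2 := sq_nonneg T
  have q1 := abs_le.1 (le_refl |B1|)
  have q2 := abs_le.1 (le_refl |B2|)
  have q3 := abs_le.1 (le_refl |B3|)
  have q4 := abs_le.1 h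
  have q5 : Z * T ^ 2 ≤ 79 * T ^ 2 := mul_le_mul_of_nonneg_right hZ' hT2
  clear_value B1 B2 B3 R
  rw [abs_le]
  constructor <;> linarith [q1.1, q1.2, q2.1, q2.2, q3.1, q3.2, q4.1, q4.2]

/-- f (1-f) |1-2f| ≤ 0.0963 -/
lemma cub {f : ℝ} (hf : 0 < f) (hf1 : f < 1) : |f * (1 - f) * (1 - 2 * f)| ≤ 963 / 10000 := by
  apply abs_le_of_sq_le_sq _ (by norm_num)
  set g := (1 - 2 * f) ^ 2 with hg
  have e1 : (f * (1 - f) * (1 - 2 * f)) ^ 2 = ((1 - g) / 4) ^ 2 * g := by rw [hg]; ring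
  rw [e1]
  have hg0 : 0 ≤ g := sq_nonneg _
  have hg1 : g ≤ 1 := by
    rw [hg]; nlinarith
  have : ((1 - g) / 4) ^ 2 * g = 1 / 108 - (1 / 3 - g) ^ 2 * (4 / 3 - g) / 16 := by ring
  rw [this]
  have h3 : 0 ≤ (1 / 3 - g) ^ 2 * (4 / 3 - g) / 16 := by
    have : 0 ≤ 4 / 3 - g := by linarith
    positivity
  norm_num
  linarith

lemma nrm {D : Type} [NormedAddCommGroup D] [NormedSpace ℝ D] {m r : ℝ} {x DP R : D} (hm : 0 ≤ m)
    (hDP : DP = m • x + R) (hR : ‖R‖ ≤ r) :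
    ‖DP‖ ≤ m * ‖x‖ + r ∧ m * ‖x‖ - r ≤ ‖DP‖ := by
  have h1 : ‖m • x‖ = m * ‖x‖ := by rw [norm_smul, Real.norm_of_nonneg hm]
  constructor
  · rw [hDP]
    calc ‖m • x + R‖ ≤ ‖m • x‖ + ‖R‖ := norm_add_le _ _
      _ ≤ m * ‖x‖ + r := by rw [h1]; linarith
  · have h2 : m • x = DP - R := by rw [hDP]; abel
    have h3 : ‖m • x‖ ≤ ‖DP‖ + ‖R‖ := by rw [h2]; exact norm_sub_le _ _
    rw [h1] at h3
    linarith

lemma smulb {D : Type} [NormedAddCommGroup D] [NormedSpace ℝ D] {c k H : ℝ} {x : D} (hx : ‖x‖ ≤ H)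
    (hc : |c| ≤ k) : ‖c • x‖ ≤ k * H := by
  rw [norm_smul, Real.norm_eq_abs]
  exact mul_le_mul hc hx (norm_nonneg _) ((abs_nonneg _).trans hc)

/-- squares of the values -/
lemma sqb {a X T c : ℝ} (ha : |a| ≤ X * T) (hX : X ^ 2 ≤ c) : a ^ 2 ≤ c * T ^ 2 := by
  have h1 : a ^ 2 ≤ (X * T) ^ 2 := sq_le_sq' (by linarith [abs_le.1 ha]) (abs_le.1 ha).2
  have h2 := mul_le_mul_of_nonneg_right hX (sq_nonneg T)
  rw [mul_pow] at h1
  linarith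

lemma prodb {a b X Y T H : ℝ} (hT : 0 ≤ T) (ha : |a| ≤ X * T) (hb : |b| ≤ Y * T)
    (hX : X ≤ H) (hY : Y ≤ H) : |a * b| ≤ H ^ 2 * T ^ 2 := by
  have h1 : |a| ≤ H * T := ha.trans (mul_le_mul_of_nonneg_right hX hT)
  have h2 : |b| ≤ H * T := hb.trans (mul_le_mul_of_nonneg_right hY hT)
  have h3 := mulb h1 h2
  linarith

/-- k * (H² T²) is small -/
lemma kht {k H T C : ℝ} (hk : H ^ 2 * k ≤ 1 / 10 ^ 5) (hC : 0 ≤ C) :
    C * k * (H ^ 2 * T ^ 2) ≤ C / 10 ^ 5 * T ^ 2 := by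
  have h1 := mul_le_mul_of_nonneg_right hk (sq_nonneg T)
  have h2 := mul_le_mul_of_nonneg_left h1 hC
  linarith

lemma sq_low {x : ℝ} (h0 : 0 ≤ x) (h : 99 / 100 ≤ x ^ 2) : 9949 / 10000 ≤ x := by
  by_contra hc
  push Not at hc
  nlinarith

lemma sq_up {x : ℝ} (h : x ^ 2 ≤ 101 / 100) : x ≤ 1005 / 1000 := by
  by_contra hc
  push Not at hc
  nlinarith

section cases

variable {D : Type} [NormedAddCommGroup D] [NormedSpace ℝ D] {x0 x1 xu : D}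
  {e f uu i H P : ℝ} {DP : D}

/-- the first order inequalities -/
def Concl (P n : ℝ) : Prop := P ≤ 1301 / 1000 ∧
  (27 / 200) ^ 2 * n ^ 2 + 9 / 5 * P ≤ 64 / 25 ∧
  (P ≤ 21 / 50 → 11 * (11 / 20 - P) ≤ n) ∧
  (77 / 100 ≤ P → P ≤ 113 / 100 → 41 / 10 ≤ n)

lemma numA {n X0 : ℝ} (he : 0 < e) (he1 : e ≤ 1) (hf : 0 < f) (hf0 : f ≤ 1 / 10 ^ 5)
    (hU : 0 ≤ uu * e) (hU0 : uu * e ≤ 1 / 10 ^ 5) (hX : 9949 / 10000 ≤ X0) (hX' : X0 ≤ 1005 / 1000)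
    (hn : n ≤ 253 / 40 * e * X0 + 1 / 2000) (hn' : 253 / 40 * e * X0 - 1 / 2000 ≤ n) (hn0 : 0 ≤ n)
    (hP : P = (1 - e) * (11 / 20 + 3 / 4 * f) + uu * e) : Concl P n := by
  have h1 : e * X0 ≤ 1005 / 1000 * e := by
    have := mul_le_mul_of_nonneg_left hX' he.le
    linarith
  have h2 : 9949 / 10000 * e ≤ e * X0 := by
    have := mul_le_mul_of_nonneg_left hX he.le
    linarith
  have h3 : 0 ≤ e * f := by positivity
  have h4 : 0 ≤ (1 - e) * f := mul_nonneg (by linarith) hf.le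
  have hPe : P = 11 / 20 - 11 / 20 * e + 3 / 4 * ((1 - e) * f) + uu * e := by rw [hP]; ring
  have hPu : P ≤ 551 / 1000 := by
    have : (1 - e) * f ≤ f := by linarith
    linarith
  have hn2 : n ≤ 636 / 100 := by linarith
  refine ⟨by linarith, ?_, ?_, ?_⟩
  · have : n ^ 2 ≤ (636 / 100) ^ 2 := pow_le_pow_left₀ hn0 hn2 2
    linarith
  · intro h
    have : 11 / 20 - P ≤ 11 / 20 * e := by linarith
    linarith
  · intro h
    linarith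

lemma numB {n X1 : ℝ} (he : 0 < e) (he0 : e ≤ 1 / 10 ^ 5) (hf : 0 < f) (hf1 : f < 1)
    (hU : 0 ≤ uu * e) (hU0 : uu * e ≤ 1 / 10 ^ 5) (hX : 9949 / 10000 ≤ X1) (hX' : X1 ≤ 1005 / 1000)
    (hn : n ≤ 24 * (1 - e) * (f * (1 - f)) * X1 + 1 / 2000)
    (hn' : 24 * (1 - e) * (f * (1 - f)) * X1 - 1 / 2000 ≤ n) (hn0 : 0 ≤ n)
    (hP : P = (1 - e) * (11 / 20 + 3 / 4 * f) + uu * e) : Concl P n := by
  have hg0 : 0 ≤ f * (1 - f) := mul_nonneg hf.le (by linarith)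
  have hg4 : f * (1 - f) ≤ 1 / 4 := by nlinarith [sq_nonneg (f - 1 / 2)]
  have hPe : P = 11 / 20 + 3 / 4 * f - e * (11 / 20 + 3 / 4 * f) + uu * e := by rw [hP]; ring
  have heB : 0 ≤ e * (11 / 20 + 3 / 4 * f) := by positivity
  have heB' : e * (11 / 20 + 3 / 4 * f) ≤ 13 / 10 * e := by
    have := mul_le_mul_of_nonneg_left (show 11 / 20 + 3 / 4 * f ≤ 13 / 10 by linarith) he.le
    linarith
  have hPu : P ≤ 11 / 20 + 3 / 4 * f + 1 / 10 ^ 5 := by linarith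
  have hPl : 11 / 20 + 3 / 4 * f - 2 / 10 ^ 5 ≤ P := by linarith
  refine ⟨by linarith, ?_, ?_, ?_⟩
  · have h1 : 24 * (1 - e) * (f * (1 - f)) * X1 ≤ 2412 / 100 * (f * (1 - f)) := by
      have a1 : (1 - e) * (f * (1 - f)) ≤ f * (1 - f) := by nlinarith
      have a2 : 0 ≤ (1 - e) * (f * (1 - f)) := mul_nonneg (by linarith) hg0
      have a3 := mul_le_mul_of_nonneg_left hX' a2
      nlinarith
    have h2 : n ≤ 2412 / 100 * (f * (1 - f)) + 1 / 2000 := by linarith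
    have h3 : n ^ 2 ≤ (2412 / 100 * (f * (1 - f)) + 1 / 2000) ^ 2 := pow_le_pow_left₀ hn0 h2 2
    have h4 : (f * (1 - f)) ^ 2 ≤ 1 / 4 * (f * (1 - f)) := by nlinarith
    have h5 : n ^ 2 ≤ 1455 / 10 * (f * (1 - f)) + 1 / 1000 := by nlinarith
    nlinarith [sq_nonneg (f - 3 / 4)]
  · intro h
    linarith
  · intro h h'
    have f1 : 293 / 1000 ≤ f := by linarith
    have f2 : f ≤ 774 / 1000 := by linarith
    have g1 : 1749 / 10000 ≤ f * (1 - f) := by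
      nlinarith [mul_nonneg (sub_nonneg.2 f1) (sub_nonneg.2 f2)]
    have g2 : 4197 / 1000 ≤ 24 * (1 - e) * (f * (1 - f)) := by nlinarith
    have g3 : 4197 / 1000 * (9949 / 10000) ≤ 24 * (1 - e) * (f * (1 - f)) * X1 :=
      mul_le_mul g2 hX (by norm_num) (by linarith)
    linarith

lemma numC {n : ℝ} (he : 0 < e) (he0 : e ≤ 1 / 10 ^ 5) (hf : 0 < f) (hf1 : f < 1)
    (hU : 0 ≤ uu * e) (hU0 : uu * e ≤ 1 / 10 ^ 5) (hff : f ≤ 1 / 10 ^ 5 ∨ 1 - f ≤ 1 / 10 ^ 5)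
    (hn : n ≤ 1 / 1000) (hn0 : 0 ≤ n)
    (hP : P = (1 - e) * (11 / 20 + 3 / 4 * f) + uu * e) : Concl P n := by
  have hPe : P = 11 / 20 + 3 / 4 * f - e * (11 / 20 + 3 / 4 * f) + uu * e := by rw [hP]; ring
  have heB : 0 ≤ e * (11 / 20 + 3 / 4 * f) := by positivity
  have heB' : e * (11 / 20 + 3 / 4 * f) ≤ 13 / 10 * e := by
    have := mul_le_mul_of_nonneg_left (show 11 / 20 + 3 / 4 * f ≤ 13 / 10 by linarith) he.le
    linarith
  have hPu : P ≤ 11 / 20 + 3 / 4 * f + 1 / 10 ^ 5 := by linarith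
  have hPl : 11 / 20 + 3 / 4 * f - 2 / 10 ^ 5 ≤ P := by linarith
  refine ⟨by linarith, ?_, ?_, ?_⟩
  · have : n ^ 2 ≤ (1 / 1000) ^ 2 := pow_le_pow_left₀ hn0 hn 2
    linarith
  · intro h
    linarith
  · intro h h'
    rcases hff with h1 | h1 <;> linarith

/-- the norm of the gradient in case A -/
lemma nrmA (he : 0 < e) (he1 : e ≤ 1) (hf : 0 < f) (hf1 : f < 1) (hu : 0 ≤ uu)
    (hi : 0 < i) (i1 : H * i ≤ 1 / 10 ^ 5) (U1 : H * (uu * e) ≤ 1 / 10 ^ 5)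
    (f1 : H * f ≤ 1 / 10 ^ 5) (h0 : ‖x0‖ ≤ H) (h1 : ‖x1‖ ≤ H) (hxu : ‖xu‖ ≤ H)
    (hDP : DP = (24 * (1 - e) * (f * (1 - f))) • x1 +
      (23 / 2 * e * (11 / 20 + 3 / 4 * f) - 23 / 2 * (uu * e)) • x0 + (i * e) • xu) :
    ‖DP‖ ≤ 253 / 40 * e * ‖x0‖ + 1 / 2000 ∧ 253 / 40 * e * ‖x0‖ - 1 / 2000 ≤ ‖DP‖ := by
  have hUn : 0 ≤ uu * e := mul_nonneg hu he.le
  apply nrm (R := (24 * (1 - e) * (f * (1 - f))) • x1 +
      (69 / 8 * (e * f) - 23 / 2 * (uu * e)) • x0 + (i * e) • xu) (by positivity)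
  · rw [hDP]; module
  · have hef : 0 ≤ e * f := by positivity
    have hef' : e * f ≤ f := by
      have := mul_le_mul_of_nonneg_right he1 hf.le
      linarith
    have hff : 0 ≤ f * (1 - f) := mul_nonneg hf.le (by linarith)
    have hff' : f * (1 - f) ≤ f := by nlinarith
    have k1 : |24 * (1 - e) * (f * (1 - f))| ≤ 24 * f := by
      rw [abs_of_nonneg (mul_nonneg (mul_nonneg (by norm_num) (by linarith)) hff)]
      linarith [mul_nonneg he.le hff]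
    have k2 : |69 / 8 * (e * f) - 23 / 2 * (uu * e)| ≤ 69 / 8 * f + 23 / 2 * (uu * e) := by
      rw [abs_le]
      constructor <;> linarith
    have k3 : |i * e| ≤ i := by
      rw [abs_of_nonneg (by positivity)]
      have := mul_le_mul_of_nonneg_left he1 hi.le
      linarith
    have b1 := smulb h1 k1
    have b2 := smulb h0 k2
    have b3 := smulb hxu k3
    calc ‖(24 * (1 - e) * (f * (1 - f))) • x1 +
          (69 / 8 * (e * f) - 23 / 2 * (uu * e)) • x0 + (i * e) • xu‖ ≤ _ := norm_add₃_le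
      _ ≤ 1 / 2000 := by linarith

/-- the norm of the gradient in cases B and C -/
lemma nrmB (he : 0 < e) (he1 : e ≤ 1) (hf : 0 < f) (hf1 : f < 1) (hu : 0 ≤ uu)
    (hi : 0 < i) (i1 : H * i ≤ 1 / 10 ^ 5) (U1 : H * (uu * e) ≤ 1 / 10 ^ 5)
    (e1 : H * e ≤ 1 / 10 ^ 5) (h0 : ‖x0‖ ≤ H) (hxu : ‖xu‖ ≤ H)
    (hDP : DP = (24 * (1 - e) * (f * (1 - f))) • x1 +
      (23 / 2 * e * (11 / 20 + 3 / 4 * f) - 23 / 2 * (uu * e)) • x0 + (i * e) • xu) :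
    ‖DP‖ ≤ 24 * (1 - e) * (f * (1 - f)) * ‖x1‖ + 1 / 2000 ∧
      24 * (1 - e) * (f * (1 - f)) * ‖x1‖ - 1 / 2000 ≤ ‖DP‖ := by
  have hUn : 0 ≤ uu * e := mul_nonneg hu he.le
  have hff : 0 ≤ f * (1 - f) := mul_nonneg hf.le (by linarith)
  apply nrm (R := (23 / 2 * e * (11 / 20 + 3 / 4 * f) - 23 / 2 * (uu * e)) • x0 + (i * e) • xu)
    (mul_nonneg (mul_nonneg (by norm_num) (by linarith)) hff)
  · rw [hDP, add_assoc]
  · have heB : 0 ≤ e * (11 / 20 + 3 / 4 * f) := by positivity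
    have heB' : e * (11 / 20 + 3 / 4 * f) ≤ 13 / 10 * e := by
      have := mul_le_mul_of_nonneg_left (show 11 / 20 + 3 / 4 * f ≤ 13 / 10 by linarith) he.le
      linarith
    have k2 : |23 / 2 * e * (11 / 20 + 3 / 4 * f) - 23 / 2 * (uu * e)| ≤
        15 * e + 23 / 2 * (uu * e) := by
      rw [abs_le]
      constructor <;> linarith
    have k3 : |i * e| ≤ i := by
      rw [abs_of_nonneg (by positivity)]
      have := mul_le_mul_of_nonneg_left he1 hi.le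
      linarith
    have b2 := smulb h0 k2
    have b3 := smulb hxu k3
    calc ‖(23 / 2 * e * (11 / 20 + 3 / 4 * f) - 23 / 2 * (uu * e)) • x0 + (i * e) • xu‖ ≤ _ :=
          norm_add_le _ _
      _ ≤ 1 / 2000 := by linarith

/-- the main terms of the second derivative in case A -/
lemma secA {T a0 a1 X0 X1 : ℝ} (he : 0 < e) (he1 : e ≤ 1) (hf : 0 < f) (hf1 : f < 1)
    (f2 : H ^ 2 * f ≤ 1 / 10 ^ 5) (hX0 : X0 ^ 2 ≤ 101 / 100) (h0 : X0 ≤ H)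
    (h1 : X1 ≤ H) (hT : 0 ≤ T) (ha0 : |a0| ≤ X0 * T) (ha1 : |a1| ≤ X1 * T) :
    |768 * ((1 - e) * (f * (1 - f) * (1 - 2 * f))) * a1 ^ 2| +
      |552 * (e * (f * (1 - f))) * (a0 * a1)| +
      |529 / 4 * ((11 / 20 + 3 / 4 * f) * e) * a0 ^ 2| ≤ 75 * T ^ 2 := by
  have hff : 0 ≤ f * (1 - f) := mul_nonneg hf.le (by linarith)
  have hff' : f * (1 - f) ≤ f := by nlinarith
  have p1 : |a1 ^ 2| ≤ H ^ 2 * T ^ 2 := by
    rw [pow_two a1]; exact prodb hT ha1 ha1 h1 h1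
  have p2 : |a0 * a1| ≤ H ^ 2 * T ^ 2 := prodb hT ha0 ha1 h0 h1
  have p3 : |a0 ^ 2| ≤ H ^ 2 * T ^ 2 := by
    rw [pow_two a0]; exact prodb hT ha0 ha0 h0 h0
  have p4 : a0 ^ 2 ≤ 101 / 100 * T ^ 2 := sqb ha0 hX0
  have q0 : |(f * (1 - f)) * (1 - 2 * f)| ≤ f := by
    have a1 : |f * (1 - f)| ≤ f := by rw [abs_of_nonneg hff]; exact hff'
    have a2 : |1 - 2 * f| ≤ 1 := by rw [abs_le]; constructor <;> linarith
    have := mulb a1 a2
    linarith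
  have q1 : |768 * ((1 - e) * (f * (1 - f) * (1 - 2 * f)))| ≤ 768 * f := by
    have a2 : |1 - e| ≤ 1 := by rw [abs_le]; constructor <;> linarith
    have a3 : |(768 : ℝ)| ≤ 768 := by norm_num
    have := mulb a3 (mulb a2 q0)
    linarith
  have q2 : |552 * (e * (f * (1 - f)))| ≤ 552 * f := by
    rw [abs_of_nonneg (by positivity)]
    have := mul_le_mul_of_nonneg_right he1 hff
    linarith
  have r1 := mulb q1 p1
  have r2 := mulb q2 p2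
  have s1 := kht (T := T) f2 (C := 768) (by norm_num)
  have s2 := kht (T := T) f2 (C := 552) (by norm_num)
  have s3 := kht (T := T) f2 (C := 100) (by norm_num)
  have r3 : |529 / 4 * ((11 / 20 + 3 / 4 * f) * e) * a0 ^ 2| ≤
      529 / 4 * (11 / 20) * (101 / 100 * T ^ 2) + 100 * f * (H ^ 2 * T ^ 2) := by
    rw [abs_of_nonneg (by positivity)]
    rw [abs_of_nonneg (sq_nonneg a0)] at p3
    have t1 : (11 / 20 + 3 / 4 * f) * e ≤ 11 / 20 + 3 / 4 * f := by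
      have := mul_le_mul_of_nonneg_left he1 (show 0 ≤ 11 / 20 + 3 / 4 * f by linarith)
      linarith
    have t2 := mul_le_mul_of_nonneg_right t1 (sq_nonneg a0)
    have t3 := mul_le_mul_of_nonneg_left p3 hf.le
    have t4 : 0 ≤ f * (H ^ 2 * T ^ 2) := by positivity
    linarith
  have hT2 : 0 ≤ T ^ 2 := sq_nonneg T
  linarith

/-- the main terms of the second derivative in cases B and C -/
lemma secB {T a0 a1 X0 X1 c : ℝ} (he : 0 < e) (hf : 0 < f) (hf1 : f < 1)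
    (e2 : H ^ 2 * e ≤ 1 / 10 ^ 5) (h0 : X0 ≤ H)
    (h1 : X1 ≤ H) (hT : 0 ≤ T) (ha0 : |a0| ≤ X0 * T) (ha1 : |a1| ≤ X1 * T)
    (hc : |768 * ((1 - e) * (f * (1 - f) * (1 - 2 * f))) * a1 ^ 2| ≤ c * T ^ 2) :
    |768 * ((1 - e) * (f * (1 - f) * (1 - 2 * f))) * a1 ^ 2| +
      |552 * (e * (f * (1 - f))) * (a0 * a1)| +
      |529 / 4 * ((11 / 20 + 3 / 4 * f) * e) * a0 ^ 2| ≤ (c + 1 / 100) * T ^ 2 := by
  have hff : 0 ≤ f * (1 - f) := mul_nonneg hf.le (by linarith)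
  have hff4 : f * (1 - f) ≤ 1 / 4 := by nlinarith [sq_nonneg (f - 1 / 2)]
  have p2 : |a0 * a1| ≤ H ^ 2 * T ^ 2 := prodb hT ha0 ha1 h0 h1
  have p3 : |a0 ^ 2| ≤ H ^ 2 * T ^ 2 := by
    rw [pow_two a0]; exact prodb hT ha0 ha0 h0 h0
  have q2 : |552 * (e * (f * (1 - f)))| ≤ 138 * e := by
    rw [abs_of_nonneg (by positivity)]
    have := mul_le_mul_of_nonneg_left hff4 he.le
    linarith
  have q3 : |529 / 4 * ((11 / 20 + 3 / 4 * f) * e)| ≤ 172 * e := by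
    rw [abs_of_nonneg (by positivity)]
    have := mul_le_mul_of_nonneg_right (show 11 / 20 + 3 / 4 * f ≤ 13 / 10 by linarith) he.le
    linarith
  have r2 := mulb q2 p2
  have r3 := mulb q3 p3
  have s2 := kht (T := T) e2 (C := 138) (by norm_num)
  have s3 := kht (T := T) e2 (C := 172) (by norm_num)
  have hT2 : 0 ≤ T ^ 2 := sq_nonneg T
  linarith

end cases

theorem t : Pool.Agent.Helper10.BD.G_PRS := by
  intro D _ _ x0 x1 xu e f uu i H hH he he1 hf hf1 huu hi hi' hU h0 h1 hxu hcase P hP DP hDP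
  obtain ⟨i2, i1, i0⟩ := small hH hi.le hi'
  have hUn : 0 ≤ uu * e := mul_nonneg huu he.le
  obtain ⟨U2, U1, U0⟩ := small hH hUn hU
  rcases hcase with ⟨hA1, hA2, hA3⟩ | ⟨hB1, hB2, hB3⟩ | ⟨hC1, hC2⟩
  · obtain ⟨f2, f1, f0⟩ := small hH hf.le hA3
    obtain ⟨n1, n2⟩ := nrmA he he1 hf hf1 huu hi i1 U1 f1 h0 h1 hxu hDP
    obtain ⟨c1, c2, c3, c4⟩ := numA he he1 hf f0 hUn U0 (sq_low (norm_nonneg x0) hA1)
      (sq_up hA2) n1 n2 (norm_nonneg _) hP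
    refine ⟨c1, c2, c3, c4, ?_⟩
    intro T a0 a1 au c0 c1 cu hT ha0 ha1 hau hc0 hc1 hcu
    exact second hH he he1 hf hf1 huu hi hi' hU h0 hxu hT ha0 hau hc0 hc1 hcu
      (secA he he1 hf hf1 f2 hA2 h0 h1 hT ha0 ha1) (by norm_num)
  · obtain ⟨e2, e1, e0⟩ := small hH he.le hB3
    obtain ⟨n1, n2⟩ := nrmB he he1 hf hf1 huu hi i1 U1 e1 h0 hxu hDP
    obtain ⟨c1, c2, c3, c4⟩ := numB he e0 hf hf1 hUn U0 (sq_low (norm_nonneg x1) hB1)
      (sq_up hB2) n1 n2 (norm_nonneg _) hP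
    refine ⟨c1, c2, c3, c4, ?_⟩
    intro T a0 a1 au c0 c1 cu hT ha0 ha1 hau hc0 hc1 hcu
    refine second hH he he1 hf hf1 huu hi hi' hU h0 hxu hT ha0 hau hc0 hc1 hcu
      (secB he hf hf1 e2 h0 h1 hT ha0 ha1 (c := 75) ?_) (by norm_num)
    have p4 : |a1 ^ 2| ≤ 101 / 100 * T ^ 2 := by
      rw [abs_of_nonneg (sq_nonneg a1)]
      exact sqb ha1 hB2
    have a2 : |1 - e| ≤ 1 := by rw [abs_le]; constructor <;> linarith
    have a3 : |(768 : ℝ)| ≤ 768 := by norm_num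
    have := mulb (mulb a3 (mulb a2 (cub hf hf1))) p4
    have hT2 : 0 ≤ T ^ 2 := sq_nonneg T
    linarith
  · obtain ⟨e2, e1, e0⟩ := small hH he.le hC1
    have hff : 0 ≤ f * (1 - f) := mul_nonneg hf.le (by linarith)
    have hk : H ^ 2 * (f * (1 - f)) ≤ 1 / 10 ^ 5 ∧ H * (f * (1 - f)) ≤ 1 / 10 ^ 5 := by
      rcases hC2 with h | h
      · obtain ⟨f2, f1, f0⟩ := small hH hf.le h
        have : f * (1 - f) ≤ f := by nlinarith
        exact ⟨(mul_le_mul_of_nonneg_left this (sq_nonneg H)).trans f2,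
          (mul_le_mul_of_nonneg_left this (by linarith)).trans f1⟩
      · obtain ⟨f2, f1, f0⟩ := small hH (show 0 ≤ 1 - f by linarith) h
        have : f * (1 - f) ≤ 1 - f := by nlinarith
        exact ⟨(mul_le_mul_of_nonneg_left this (sq_nonneg H)).trans f2,
          (mul_le_mul_of_nonneg_left this (by linarith)).trans f1⟩
    have hff5 : f ≤ 1 / 10 ^ 5 ∨ 1 - f ≤ 1 / 10 ^ 5 := by
      rcases hC2 with h | h
      · exact Or.inl (small hH hf.le h).2.2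
      · exact Or.inr (small hH (show 0 ≤ 1 - f by linarith) h).2.2
    obtain ⟨n1, n2⟩ := nrmB he he1 hf hf1 huu hi i1 U1 e1 h0 hxu hDP
    have n3 : ‖DP‖ ≤ 1 / 1000 := by
      have b1 : 24 * (1 - e) * (f * (1 - f)) ≤ 24 * (f * (1 - f)) := by
        linarith [mul_nonneg he.le hff]
      have b2 : 24 * (1 - e) * (f * (1 - f)) * ‖x1‖ ≤ 24 * (f * (1 - f)) * H :=
        mul_le_mul b1 h1 (norm_nonneg _) (by positivity)
      linarith [hk.2]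
    obtain ⟨c1, c2, c3, c4⟩ := numC he e0 hf hf1 hUn U0 hff5 n3 (norm_nonneg _) hP
    refine ⟨c1, c2, c3, c4, ?_⟩
    intro T a0 a1 au c0 c1 cu hT ha0 ha1 hau hc0 hc1 hcu
    refine second hH he he1 hf hf1 huu hi hi' hU h0 hxu hT ha0 hau hc0 hc1 hcu
      (secB he hf hf1 e2 h0 h1 hT ha0 ha1 (c := 1) ?_) (by norm_num)
    have p1 : |a1 ^ 2| ≤ H ^ 2 * T ^ 2 := by
      rw [pow_two a1]; exact prodb hT ha1 ha1 h1 h1
    have a2 : |1 - e| ≤ 1 := by rw [abs_le]; constructor <;> linarith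
    have a3 : |(768 : ℝ)| ≤ 768 := by norm_num
    have a4 : |f * (1 - f) * (1 - 2 * f)| ≤ f * (1 - f) * 1 := by
      apply mulb
      · rw [abs_of_nonneg hff]
      · rw [abs_le]; constructor <;> linarith
    have := mulb (mulb a3 (mulb a2 a4)) p1
    have s1 := kht (T := T) hk.1 (C := 768) (by norm_num)
    have hT2 : 0 ≤ T ^ 2 := sq_nonneg T
    linarith

end Pool.Agent.Helper9.BD.PRS
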